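import Mathlib
import Pool.Agent.Y364.RG.Fam

set_option autoImplicit false

/-!
# Monochromatic sets of every size for regressive colourings of pairs

Let `κ` be uncountable. Every regressive colouring has a monochromatic set with four elements. The
existence of one with five elements, of an infinite one and of an uncountable one are equivalent,
and equivalent to `2 ^ ℵ₀ < 2 ^ κ`; more generally, for infinite `θ`, all regressive colourings
have a monochromatic set with more than `θ` elements if and only if `2 ^ θ < 2 ^ κ`, and then any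
finite number of regressive colourings have a common one.
-/

open Cardinal Set

namespace Pool.Agent.Results.MP_553296_lc.AllSizes

universe u

/-- The set `2 ^ κ` of all functions from the ordinals below `κ` to a two-element set. -/
abbrev Branch (κ : Cardinal.{u}) : Type (u + 1) := Iio κ.ord → Bool

/-- The first difference of two branches: the least ordinal at which they differ. -/
noncomputable def Delta {κ : Cardinal.{u}} (x y : Branch κ) : Ordinal.{u} :=
  sInf {i | ∃ h : i < κ.ord, x ⟨i, h⟩ ≠ y ⟨i, h⟩}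

/-- A symmetric colouring of the pairs of different branches by ordinals below `κ` is regressive
when the colour of a pair is below its first difference, for all pairs with positive first
difference. -/
def DeltaRegressive (κ : Cardinal.{u}) (c : Branch κ → Branch κ → Ordinal.{u}) : Prop :=
  (∀ x y, c x y = c y x) ∧ (∀ x y, x ≠ y → c x y < κ.ord) ∧
    ∀ x y, x ≠ y → 0 < Delta x y → c x y < Delta x y

/-- `Y` is monochromatic for `c`. -/
def Mono {κ : Cardinal.{u}} (c : Branch κ → Branch κ → Ordinal.{u}) (Y : Set (Branch κ)) : Prop :=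
  ∃ ν : Ordinal.{u}, ∀ x ∈ Y, ∀ y ∈ Y, x ≠ y → c x y = ν

/-- **Monochromatic sets of every size.** Let `κ` be an uncountable cardinal.
(1) Every regressive colouring has a monochromatic set with four elements.
(2) Equivalent are: `2 ^ ℵ₀ < 2 ^ κ`; every regressive colouring has a monochromatic set with five
elements; an infinite one; an uncountable one; any two regressive colourings have a common
monochromatic triple; any finite number of regressive colourings have a common uncountable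
monochromatic set.
(3) For every infinite cardinal `θ`, equivalent are: `2 ^ θ < 2 ^ κ`; every regressive colouring has
a monochromatic set with more than `θ` elements; any finite number of regressive colourings have a
common one.
(4) If `κ ≤ 2 ^ λ`, some `λ` regressive colourings have no common monochromatic triple. -/
theorem result (κ : Cardinal.{u}) (hκ : ℵ₀ < κ) :
    (∀ c, DeltaRegressive κ c → ∃ Y : Set (Branch κ), Y.ncard = 4 ∧ Mono c Y) ∧
    List.TFAE [
      (2 : Cardinal.{u}) ^ ℵ₀ < (2 : Cardinal.{u}) ^ κ,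
      ∀ c, DeltaRegressive κ c → ∃ Y : Set (Branch κ), Y.ncard = 5 ∧ Mono c Y,
      ∀ c, DeltaRegressive κ c → ∃ Y : Set (Branch κ), Y.Infinite ∧ Mono c Y,
      ∀ c, DeltaRegressive κ c → ∃ Y : Set (Branch κ), ¬ Y.Countable ∧ Mono c Y,
      ∀ c c', DeltaRegressive κ c → DeltaRegressive κ c' →
        ∃ Y : Set (Branch κ), Y.ncard = 3 ∧ Mono c Y ∧ Mono c' Y,
      ∀ (n : ℕ) (c : Fin n → Branch κ → Branch κ → Ordinal.{u}),
        (∀ i, DeltaRegressive κ (c i)) →
          ∃ Y : Set (Branch κ), ¬ Y.Countable ∧ ∀ i, Mono (c i) Y] ∧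
    (∀ θ : Cardinal.{u}, ℵ₀ ≤ θ → List.TFAE [
      (2 : Cardinal.{u}) ^ θ < (2 : Cardinal.{u}) ^ κ,
      ∀ c, DeltaRegressive κ c →
        ∃ Y : Set (Branch κ), Cardinal.lift.{u + 1} θ < #Y ∧ Mono c Y,
      ∀ (n : ℕ) (c : Fin n → Branch κ → Branch κ → Ordinal.{u}),
        (∀ i, DeltaRegressive κ (c i)) →
          ∃ Y : Set (Branch κ), Cardinal.lift.{u + 1} θ < #Y ∧ ∀ i, Mono (c i) Y]) ∧
    (∀ L : Type u, κ ≤ 2 ^ #L → ∃ c : L → Branch κ → Branch κ → Ordinal.{u},
      (∀ i, DeltaRegressive κ (c i)) ∧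
        ¬ ∃ Y : Set (Branch κ), Y.ncard = 3 ∧ ∀ i, Mono (c i) Y) := by
  classical
  have hsub : ∀ (m : ℕ) (Y : Set (Branch κ)), Y.Infinite → ∃ Z ⊆ Y, Z.ncard = m := by
    intro m Y hY
    obtain ⟨Z, hZ, -, hm⟩ := hY.exists_subset_ncard_eq m
    exact ⟨Z, hZ, hm⟩
  have hmono : ∀ {c : Branch κ → Branch κ → Ordinal.{u}} {Y Z : Set (Branch κ)}, Mono c Y →
      Z ⊆ Y → Mono c Z := by
    rintro c Y Z ⟨ν, hν⟩ hZ
    exact ⟨ν, fun x hx y hy => hν x (hZ hx) y (hZ hy)⟩
  have hunc : ∀ Y : Set (Branch κ), Cardinal.lift.{u + 1, u} ℵ₀ < #Y → ¬ Y.Countable := by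
    intro Y hY hc
    rw [Cardinal.lift_aleph0] at hY
    exact absurd (Cardinal.le_aleph0_iff_set_countable.mpr hc) (not_le.mpr hY)
  have htri : ∀ {c : Branch κ → Branch κ → Ordinal.{u}} {x y z : Branch κ},
      Mono c {x, y, z} → x ≠ y → x ≠ z → y ≠ z → c x y = c x z ∧ c x y = c y z := by
    rintro c x y z ⟨ν, hν⟩ hxy hxz hyz
    have h1 := hν x (by simp) y (by simp) hxy
    have h2 := hν x (by simp) z (by simp) hxz
    have h3 := hν y (by simp) z (by simp) hyz
    exact ⟨h1.trans h2.symm, h1.trans h3.symm⟩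
  have hlarge : ∀ θ : Cardinal.{u}, ℵ₀ ≤ θ → (2 : Cardinal.{u}) ^ θ < (2 : Cardinal.{u}) ^ κ →
      ∀ (n : ℕ) (c : Fin n → Branch κ → Branch κ → Ordinal.{u}),
        (∀ i, DeltaRegressive κ (c i)) →
          ∃ Y : Set (Branch κ), Cardinal.lift.{u + 1} θ < #Y ∧ ∀ i, Mono (c i) Y := by
    intro θ hθ h n c hc
    exact Pool.Agent.Y364.RG.large hθ h n c hc
  refine ⟨fun c hc => ?_, ?_, ?_, ?_⟩
  · obtain ⟨Y, hY, ν, hν⟩ := Pool.Agent.H529R3.exists_four hκ c hc
    exact ⟨Y, hY, ν, hν⟩
  · tfae_have 1 → 6 := by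
      intro h n c hc
      obtain ⟨Y, hY, hm⟩ := hlarge ℵ₀ le_rfl h n c hc
      exact ⟨Y, hunc Y hY, hm⟩
    tfae_have 6 → 5 := by
      intro h c c' hc hc'
      obtain ⟨Y, hY, hm⟩ := h 2 ![c, c'] (by
        intro i
        fin_cases i
        · exact hc
        · exact hc')
      obtain ⟨Z, hZ, h3⟩ := hsub 3 Y (fun hf => hY hf.countable)
      exact ⟨Z, h3, hmono (hm 0) hZ, hmono (hm 1) hZ⟩
    tfae_have 5 → 1 := by
      intro h
      by_contra hcon
      obtain ⟨c, c', hc, hc', hno⟩ := Pool.Agent.Y364.RG.pair hκ (not_lt.mp hcon)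
      obtain ⟨Y, hY, h1, h2⟩ := h c c' hc hc'
      obtain ⟨x, y, z, hxy, hxz, hyz, rfl⟩ := Set.ncard_eq_three.mp hY
      obtain ⟨a1, a2⟩ := htri h1 hxy hxz hyz
      obtain ⟨b1, b2⟩ := htri h2 hxy hxz hyz
      exact hno ⟨x, y, z, hxy, hxz, hyz, a1, a2, b1, b2⟩
    tfae_have 6 → 4 := by
      intro h c hc
      obtain ⟨Y, hY, hm⟩ := h 1 (fun _ => c) (fun _ => hc)
      exact ⟨Y, hY, hm 0⟩
    tfae_have 4 → 3 := by
      intro h c hc
      obtain ⟨Y, hY, hm⟩ := h c hc
      exact ⟨Y, fun hf => hY hf.countable, hm⟩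
    tfae_have 3 → 2 := by
      intro h c hc
      obtain ⟨Y, hY, hm⟩ := h c hc
      obtain ⟨Z, hZ, h5⟩ := hsub 5 Y hY
      exact ⟨Z, h5, hmono hm hZ⟩
    tfae_have 2 → 1 := by
      intro h
      by_contra hcon
      obtain ⟨c, hc, hsm⟩ := Pool.Agent.H529R3.exists_small hκ (not_lt.mp hcon)
      obtain ⟨Y, hY, ν, hν⟩ := h c hc
      have := (hsm Y ν hν).2
      omega
    tfae_finish
  · intro θ hθ
    tfae_have 1 → 3 := fun h => hlarge θ hθ h
    tfae_have 3 → 2 := by
      intro h c hc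
      obtain ⟨Y, hY, hm⟩ := h 1 (fun _ => c) (fun _ => hc)
      exact ⟨Y, hY, hm 0⟩
    tfae_have 2 → 1 := by
      intro h
      by_contra hcon
      obtain ⟨c, hc, hsm⟩ := Pool.Agent.Y364.RG.small hκ hθ (not_lt.mp hcon)
      obtain ⟨Y, hY, ν, hν⟩ := h c hc
      exact absurd (hsm Y ν hν) (not_le.mpr hY)
    tfae_finish
  · intro L hL
    obtain ⟨c, hc, hno⟩ := Pool.Agent.Y364.RG.family hκ L hL
    refine ⟨c, hc, ?_⟩
    rintro ⟨Y, hY, hm⟩
    obtain ⟨x, y, z, hxy, hxz, hyz, rfl⟩ := Set.ncard_eq_three.mp hY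
    exact hno ⟨x, y, z, hxy, hxz, hyz, fun i => htri (hm i) hxy hxz hyz⟩

end Pool.Agent.Results.MP_553296_lc.AllSizes
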